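import Mathlib
import Pool.Agent.MP_fed7c7_lc.H93.Spec

set_option autoImplicit false

/-!
The second track.
-/

namespace Pool.Agent.MP_fed7c7_lc.H44

open Pool.Agent.MP_fed7c7_lc.H93

theorem wv_even (l x y z w : ℕ) : wv l x y z w % 2 = 0 := by
  unfold wv; omega

theorem base_inj {l a b a' b' : ℕ} (ha : a < l) (ha' : a' < l) (h : a + l * b = a' + l * b') :
    a = a' ∧ b = b' := by
  have h1 : a = a' := by
    have := congrArg (· % l) h
    simpa [Nat.add_mul_mod_self_left, Nat.mod_eq_of_lt ha, Nat.mod_eq_of_lt ha'] using this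
  subst h1
  exact ⟨rfl, Nat.eq_of_mul_eq_mul_left (by omega : 0 < l) (by omega)⟩

theorem wv_inj {l x y z w x' y' z' w' : ℕ} (hx : x < l) (hz : z < l) (hw : w < l)
    (hx' : x' < l) (hz' : z' < l) (hw' : w' < l) (h : wv l x y z w = wv l x' y' z' w') :
    x = x' ∧ y = y' ∧ z = z' ∧ w = w' := by
  have e : z + l * (w + l * (x + l * y)) = z' + l * (w' + l * (x' + l * y')) := by
    unfold wv at h
    nlinarith [h]
  obtain ⟨h1, e⟩ := base_inj hz hz' e
  obtain ⟨h2, e⟩ := base_inj hw hw' e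
  obtain ⟨h3, h4⟩ := base_inj hx hx' e
  exact ⟨h3, h4, h1, h2⟩

theorem lt_lt {r N : ℕ} {G : ℕ → ℕ} (hG : ∀ i < N, G i < r) (i : ℕ) : lt N G i < 2 * r + 2 := by
  unfold lt
  split_ifs with h1 h2
  · have := hG i h1; omega
  · omega
  · omega

theorem sh_lt {r N : ℕ} {G : ℕ → ℕ} (hG : ∀ i < N, G i < r) (k i : ℕ) :
    sh k (lt N G) i < 2 * r + 2 := by
  unfold sh
  split_ifs
  · exact lt_lt hG _
  · omega

theorem lt_ne {N : ℕ} (G : ℕ → ℕ) (i : ℕ) : lt N G i ≠ 0 ↔ i ≤ N := by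
  unfold lt
  split_ifs <;> omega

theorem top_mod (r k N m : ℕ) (G : ℕ → ℕ) (h : N < m) (j : ℕ) :
    top r k N m G j % 2 = 1 ↔ j = 2 * N + 1 ∨ j = 2 * m + 1 := by
  have e1 : sh m (fun i => wv (2 * r + 2) (lt N G i) (sh k (lt N G) i) (sh 1 (lt N G) i)
      (sh (k + 1) (lt N G) i)) j % 2 = 0 := by
    rw [sh]
    split_ifs
    · exact wv_even _ _ _ _ _
    · rfl
  have e2 : (2 * r + 2) ^ 2 = 2 * (2 * (r + 1) ^ 2) := by ring
  have e4 : (2 * r + 2) ^ 4 = 2 * (8 * (r + 1) ^ 4) := by ring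
  have a2 : ∀ p : Prop, ∀ _ : Decidable p, (if p then (2 * r + 2) ^ 2 else 0) % 2 = 0 := by
    intro p _; split_ifs <;> omega
  have a4 : ∀ p : Prop, ∀ _ : Decidable p, (if p then (2 * r + 2) ^ 4 else 0) % 2 = 0 := by
    intro p _; split_ifs <;> omega
  have a3 : ∀ p : Prop, ∀ _ : Decidable p, ∀ t : ℕ, (if p then 2 * t else 0) % 2 = 0 := by
    intro p _ t; split_ifs <;> omega
  have b1 := a2 (j = 2 * m) inferInstance
  have b2 := a3 (j = 2 * m + k) inferInstance ((2 * r + 2) ^ 3)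
  have b3 := a3 (j = 2 * m + k + 1) inferInstance (2 * r + 2)
  have b4 := a4 (j = 2 * m + 2 * k) inferInstance
  have b5 := a2 (j = 2 * m + 2 * k + 1) inferInstance
  unfold top
  generalize (if j = 2 * m then (2 * r + 2) ^ 2 else 0) = t1 at *
  generalize (if j = 2 * m + k then 2 * (2 * r + 2) ^ 3 else 0) = t2 at *
  generalize (if j = 2 * m + k + 1 then 2 * (2 * r + 2) else 0) = t3 at *
  generalize (if j = 2 * m + 2 * k then (2 * r + 2) ^ 4 else 0) = t4 at *
  generalize (if j = 2 * m + 2 * k + 1 then (2 * r + 2) ^ 2 else 0) = t5 at *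
  split_ifs <;> omega

theorem top_mid (r k N m : ℕ) (G : ℕ → ℕ) (j : ℕ) (h1 : 2 * N + 1 < j) (h2 : j < 2 * m) :
    top r k N m G j = sh m (fun i => wv (2 * r + 2) (lt N G i) (sh k (lt N G) i)
      (sh 1 (lt N G) i) (sh (k + 1) (lt N G) i)) j := by
  unfold top
  rw [if_neg (by omega), if_neg (by omega), if_neg (by omega), if_neg (by omega),
    if_neg (by omega), if_neg (by omega), if_neg (by omega)]
  rfl

theorem top_add (r k N m : ℕ) (G : ℕ → ℕ) (i : ℕ) (h1 : 2 * N + 1 < m + i) (h2 : i < m) :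
    top r k N m G (m + i) = wv (2 * r + 2) (lt N G i) (sh k (lt N G) i)
      (sh 1 (lt N G) i) (sh (k + 1) (lt N G) i) := by
  rw [top_mid r k N m G _ h1 (by omega), sh, if_pos (by omega), Nat.add_sub_cancel_left]

theorem s2_iff (B r Y : ℕ) (W : ℕ → ℕ → ℕ → ℕ → Prop) :
    S2 B r W Y ↔ ∃ q p, P2 (2 * r + 2) (dig B Y q) ∧
      (∀ i < p, P1 (2 * r + 2) W (dig B Y (q + 1 + i))) ∧ dig B Y (q + p + 2) % 2 = 1 ∧
      ∀ i, dig B Y (q + p + 3 + i) % 2 = 0 := by
  constructor
  · rintro ⟨q, ⟨p, ⟨o, h1, h2, h3⟩, -, h4⟩, h5, -⟩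
    obtain rfl : o = 0 := by
      by_contra h
      exact h3 0 (by omega)
    refine ⟨q, p, h5, fun i hi => ?_, ?_, fun i => ?_⟩
    · have := h4 i hi
      rwa [dig_div] at this
    · rw [dig_div, dig_div, Nat.odd_iff] at h2
      rwa [show q + p + 2 = q + 1 + (p + 1 + 0) by omega]
    · have := h1 i
      rw [dig_div, dig_div, dig_div, Nat.even_iff] at this
      rwa [show q + p + 3 + i = q + 1 + (p + 1 + (0 + 1 + i)) by omega]
  · rintro ⟨q, p, h5, h4, h2, h1⟩
    refine ⟨q, ⟨p, ⟨0, fun i => ?_, ?_, fun i hi => by omega⟩, trivial, fun i hi => ?_⟩, h5,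
      fun _ _ => trivial⟩
    · rw [dig_div, dig_div, dig_div, Nat.even_iff,
        show q + 1 + (p + 1 + (0 + 1 + i)) = q + p + 3 + i by omega]
      exact h1 i
    · rw [dig_div, dig_div, Nat.odd_iff, show q + 1 + (p + 1 + 0) = q + p + 2 by omega]
      exact h2
    · rw [dig_div]
      exact h4 i hi

theorem two : StmtTWO := by
  intro B r k N m Y G W _ _ hN hm hG hd
  have hodd : ∀ j, 2 * N + 1 ≤ j → (dig B Y j % 2 = 1 ↔ j = 2 * N + 1 ∨ j = 2 * m + 1) :=
    fun j hj => by rw [hd j hj]; exact top_mod r k N m G hm j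
  rw [s2_iff]
  constructor
  · rintro ⟨q, p, ⟨x, hx, y, -, w, hw, e, x0⟩, h4, h2, h1⟩ i i1 iN
    have o1 := (hodd (2 * m + 1) (by omega)).2 (.inr rfl)
    have o2 := (hodd (2 * N + 1) le_rfl).2 (.inl rfl)
    have l1 : 2 * m + 1 ≤ q + p + 2 := by
      by_contra h
      have := h1 (2 * m + 1 - (q + p + 3))
      rw [show q + p + 3 + (2 * m + 1 - (q + p + 3)) = 2 * m + 1 by omega] at this
      omega
    have l2 : q + p + 2 = 2 * m + 1 := by
      have := (hodd _ (by omega)).1 h2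
      omega
    have l3 : 2 * N + 1 < q := by
      by_contra h
      rcases Nat.lt_or_ge q (2 * N + 1) with h' | h'
      · obtain ⟨x, -, y, -, z, -, w, -, e, -⟩ := h4 (2 * N - q) (by omega)
        rw [show q + 1 + (2 * N - q) = 2 * N + 1 by omega] at e
        have := wv_even (2 * r + 2) x y z w
        omega
      · rw [show q = 2 * N + 1 by omega] at e
        have := wv_even (2 * r + 2) x y 0 w
        omega
    have l4 : q = m := by
      rcases Nat.lt_or_ge q m with h | h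
      · rw [hd q (by omega), top_mid r k N m G q l3 (by omega), sh, if_neg (by omega)] at e
        have e' : wv (2 * r + 2) 0 0 0 0 = wv (2 * r + 2) x y 0 w := by rw [← e]; simp [wv]
        have := (wv_inj (by omega) (by omega) (by omega) hx (by omega) hw e').1
        omega
      · obtain ⟨t, rfl⟩ := Nat.exists_eq_add_of_le h
        rw [hd _ (by omega), top_add r k N m G t l3 (by omega)] at e
        obtain ⟨e1, -, e3, -⟩ :=
          wv_inj (lt_lt hG _) (sh_lt hG _ _) (sh_lt hG _ _) hx (by omega) hw e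
        have t1 := (lt_ne (N := N) G t).1 (by omega)
        by_contra h0
        rw [sh, if_pos (by omega)] at e3
        exact (lt_ne (N := N) G (t - 1)).2 (by omega) e3
    subst l4
    obtain ⟨x, hx, y, -, z, hz, w, hw, e, h⟩ := h4 (i - 1) (by omega)
    rw [show q + 1 + (i - 1) = q + i by omega, hd _ (by omega),
      top_add r k N q G i (by omega) (by omega)] at e
    obtain ⟨e1, e2, e3, e4⟩ := wv_inj (lt_lt hG _) (sh_lt hG _ _) (sh_lt hG _ _) hx hz hw e
    rcases h with h | h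
    · exact absurd (e1.trans h) ((lt_ne G i).2 iN)
    · rw [e1, e2, e3, e4]
      exact h.2
  · intro hm' hW
    refine ⟨m, m - 1, ?_, fun i hi => ?_, ?_, fun i => ?_⟩
    · refine ⟨_, lt_lt hG 0, _, sh_lt hG k 0, _, sh_lt hG (k + 1) 0, ?_,
        (lt_ne G 0).2 (by omega)⟩
      have := top_add r k N m G 0 (by omega) (by omega)
      rw [hd m (by omega)]
      exact this
    · refine ⟨_, lt_lt hG (1 + i), _, sh_lt hG k (1 + i), _, sh_lt hG 1 (1 + i), _,
        sh_lt hG (k + 1) (1 + i), ?_, ?_⟩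
      · rw [add_assoc, hd _ (by omega), top_add r k N m G _ (by omega) (by omega)]
      · by_cases h : 1 + i ≤ N
        · refine .inr ⟨?_, hW _ (by omega) h⟩
          rw [sh, if_pos (by omega)]
          exact (lt_ne G _).2 (by omega)
        · exact .inl (by_contra fun h0 => h ((lt_ne G _).1 h0))
    · exact (hodd _ (by omega)).2 (.inr (by omega))
    · have := hodd (m + (m - 1) + 3 + i) (by omega)
      omega

end Pool.Agent.MP_fed7c7_lc.H44
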